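import Mathlib
import Pool.Agent.P.MP_fe901c_an.Defs

-- part Pool.Agent.P.MP_fe901c_an.Norm
section

/-! A normed domain with a quasi-nilpotent element has at most `|D| ^ ω` elements when `D` is
dense for the topology of the principal ideals. -/

namespace Pool.Agent.P.MP_fe901c_an

open Filter Topology Cardinal

theorem small_pow_banach {B : Type} [NormedRing B] [NormedAlgebra ℂ B] [CompleteSpace B] (a : B)
    (ha : ∀ l : ℂ, IsUnit (1 - l • a)) {ε : ℝ} (hε : 0 < ε) : ∀ᶠ n : ℕ in atTop, ‖a ^ n‖ ≤ ε ^ n := by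
  have h0 : spectralRadius ℂ a = 0 := by
    refine le_antisymm (iSup₂_le fun k hk => ?_) zero_le
    by_cases h : k = 0
    · simp [h]
    · exfalso
      apply hk
      have h1 : algebraMap ℂ B k - a = algebraMap ℂ B k * (1 - k⁻¹ • a) := by
        rw [mul_sub, mul_one, ← Algebra.smul_def, smul_smul, mul_inv_cancel₀ h, one_smul]
      rw [resolventSet, Set.mem_ofPred_eq, h1]
      exact ((IsUnit.mk0 k h).map _).mul (ha _)
  have h1 := spectrum.pow_norm_pow_one_div_tendsto_nhds_spectralRadius a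
  rw [h0] at h1
  have h2 := h1.eventually (gt_mem_nhds (ENNReal.ofReal_pos.2 hε))
  filter_upwards [h2, eventually_gt_atTop 0] with n h3 hn
  rw [ENNReal.ofReal_lt_ofReal_iff hε] at h3
  have h4 : (‖a ^ n‖ ^ (1 / n : ℝ)) ^ n ≤ ε ^ n :=
    pow_le_pow_left₀ (by positivity) h3.le n
  rwa [← Real.rpow_natCast, ← Real.rpow_mul (norm_nonneg _), one_div_mul_cancel (by positivity),
    Real.rpow_one] at h4

variable {A : Type} [CommRing A] [Algebra ℂ A]

theorem small_pow (N : AlgebraNorm ℂ A) (a : A) (ha : ∀ l : ℂ, IsUnit (1 - l • a)) {ε : ℝ}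
    (hε : 0 < ε) : ∀ᶠ n : ℕ in atTop, N (a ^ n) ≤ ε ^ n := by
  let _ : NormedRing A := N.toRingNorm.toNormedRing
  let _ : NormedCommRing A := { (inferInstance : NormedRing A) with mul_comm := mul_comm }
  let _ : NormedAlgebra ℂ A := { norm_smul_le := fun r x => (N.smul' r x).le }
  let φ : A →+* UniformSpace.Completion A := UniformSpace.Completion.coeRingHom
  have h := small_pow_banach (φ a) (fun l => by
    have := (ha l).map φ
    rw [map_sub, map_one] at this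
    convert this using 2
    exact (UniformSpace.Completion.coe_smul l a).symm) hε
  filter_upwards [h] with n hn
  rw [← map_pow] at hn
  exact (UniformSpace.Completion.norm_coe (a ^ n)).symm.trans_le hn

theorem card_le [IsDomain A] (N : AlgebraNorm ℂ A) (a : A) (ha0 : a ≠ 0)
    (ha : ∀ l : ℂ, IsUnit (1 - l • a)) {ι : Type} (d : ι → A)
    (hd : ∀ x u : A, u ≠ 0 → ∃ i, u ∣ x - d i) : #A ≤ #(ℕ → ι × ℝ) := by
  let S : A → ℕ → Set ℝ := fun x n => {r | ∃ i w, x - d i = a ^ n * w ∧ N w = r}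
  have hb : ∀ x n, BddBelow (S x n) := fun x n => ⟨0, fun r ⟨_, w, _, h⟩ => h ▸ apply_nonneg N w⟩
  have hne : ∀ x n, (S x n).Nonempty := fun x n => by
    obtain ⟨i, w, h⟩ := hd x _ (pow_ne_zero n ha0)
    exact ⟨_, i, w, h, rfl⟩
  have hch : ∀ x n, ∃ i w, x - d i = a ^ n * w ∧ N w ≤ sInf (S x n) + 1 := fun x n => by
    obtain ⟨r, ⟨i, w, h1, h2⟩, h3⟩ := Real.lt_sInf_add_pos (hne x n) one_pos
    exact ⟨i, w, h1, h2 ▸ h3.le⟩
  choose I W h1 h2 using hch
  refine mk_le_of_injective (f := fun x n => (I x n, sInf (S x n))) fun x y hxy => ?_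
  by_contra hne'
  have e1 : ∀ n, I x n = I y n := fun n => (Prod.mk.inj (congrFun hxy n)).1
  have e2 : ∀ n, sInf (S x n) = sInf (S y n) := fun n => (Prod.mk.inj (congrFun hxy n)).2
  have hu : x - y ≠ 0 := sub_ne_zero.2 hne'
  set q : ℕ → A := fun n => W x n - W y n
  have hq : ∀ n, x - y = a ^ n * q n := fun n => by
    rw [mul_sub, ← h1, ← h1, e1]; ring
  have hqN : ∀ n, N (q n) ≤ 2 * sInf (S x n) + 2 := fun n => by
    have := map_sub_le_add N (W x n) (W y n)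
    have h3 := h2 x n
    have h4 := h2 y n
    rw [← e2] at h4
    linarith
  obtain ⟨i, w, hw⟩ := hd x _ (mul_ne_zero ha0 hu)
  have hw0 := apply_nonneg N w
  have hrec : ∀ n, N (q (n + 1)) + 1 ≤ (2 * N w + 3) * (N (q n) + 1) := fun n => by
    have h3 : sInf (S x (n + 1)) ≤ N (q n * w) :=
      csInf_le (hb _ _) ⟨i, q n * w, by rw [hw, hq n]; ring, rfl⟩
    have h4 := map_mul_le_mul N (q n) w
    have h5 := hqN (n + 1)
    have h6 := apply_nonneg N (q n)
    nlinarith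
  have hexp : ∀ n, N (q n) + 1 ≤ (2 * N w + 3) ^ n * (N (q 0) + 1) := fun n => by
    induction n with
    | zero => simp
    | succ n ih =>
      refine (hrec n).trans ?_
      rw [pow_succ', mul_assoc]
      exact mul_le_mul_of_nonneg_left ih (by linarith)
  have hC : 0 < 2 * N w + 3 := by linarith
  have hsm := small_pow N a ha (ε := (2 * (2 * N w + 3))⁻¹) (by positivity)
  have hlim : Tendsto (fun n : ℕ => (2⁻¹ : ℝ) ^ n * (N (q 0) + 1)) atTop (𝓝 (0 * (N (q 0) + 1))) :=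
    (tendsto_pow_atTop_nhds_zero_of_lt_one (by norm_num) (by norm_num)).mul_const _
  rw [zero_mul] at hlim
  have hle : N (x - y) ≤ 0 := by
    refine ge_of_tendsto hlim ?_
    filter_upwards [hsm] with n hn
    have h3 := map_mul_le_mul N (a ^ n) (q n)
    rw [← hq] at h3
    calc N (x - y) ≤ N (a ^ n) * N (q n) := h3
      _ ≤ (2 * (2 * N w + 3))⁻¹ ^ n * ((2 * N w + 3) ^ n * (N (q 0) + 1)) :=
        mul_le_mul hn (by linarith [hexp n]) (apply_nonneg _ _) (by positivity)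
      _ = _ := by
        rw [← mul_assoc, ← mul_pow]
        congr 2
        field_simp
  exact hu (eq_zero_of_map_eq_zero N (le_antisymm hle (apply_nonneg _ _)))

end Pool.Agent.P.MP_fe901c_an
end

-- part Pool.Agent.P.MP_fe901c_an.Sys
section

/-! The prime ideal attached to a generalized Cauchy net of points of an ultrapower of `Ω`. -/

namespace Pool.Agent.P.MP_fe901c_an

open Filter Topology Cardinal

/-- The data defining the prime ideal. -/
structure Sys (Ω X : Type) [TopologicalSpace Ω] where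
  L : Filter X
  π : X → ℕ
  z : X → Ω
  ne : L.NeBot
  top : Tendsto π L atTop
  lift : ∀ (s : ℕ → ℂ) (C : ℝ), (∀ i, ‖s i‖ ≤ C) → ∃ S : C(Ω, ℂ), ∀ x, S (z x) = s (π x)
  approx : ∀ (H : C(Ω, ℂ)) (ε : ℕ → ℝ), (∀ i, 0 < ε i) →
    ∃ y : ℕ → Ω, ∀ᶠ x in L, ‖H (z x) - H (y (π x))‖ ≤ ε (π x)
  ultra : ∀ T : ℕ → Prop, (∀ᶠ x in L, T (π x)) ∨ ∀ᶠ x in L, ¬ T (π x)

/-- Continuous division. -/
noncomputable def dv (p : ℂ × ℂ) : ℂ := p.1 * (starRingEnd ℂ) p.2 / ((max (‖p.2‖ ^ 2) ‖p.1‖ : ℝ) : ℂ)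

theorem dv_norm (p : ℂ × ℂ) : ‖dv p‖ ≤ ‖p.2‖ := by
  rw [dv, norm_div, norm_mul, Complex.norm_conj, Complex.norm_real, Real.norm_eq_abs,
    abs_of_nonneg (le_max_of_le_right (norm_nonneg _))]
  refine div_le_of_le_mul₀ (le_max_of_le_right (norm_nonneg _)) (norm_nonneg _) ?_
  rw [mul_comm]
  exact mul_le_mul_of_nonneg_left (le_max_right _ _) (norm_nonneg _)

theorem dv_cont : Continuous dv := by
  rw [continuous_iff_continuousAt]
  intro p
  by_cases h : max (‖p.2‖ ^ 2) ‖p.1‖ = 0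
  · have h2 : p.2 = 0 := by
      have := le_max_left (‖p.2‖ ^ 2) ‖p.1‖
      rw [h] at this
      exact norm_eq_zero.1 (pow_eq_zero_iff (two_ne_zero)|>.1 (le_antisymm this (by positivity)))
    have h3 : dv p = 0 := norm_le_zero_iff.1 ((dv_norm p).trans (by simp [h2]))
    rw [ContinuousAt, h3]
    refine squeeze_zero_norm dv_norm ?_
    have : Tendsto (fun q : ℂ × ℂ => ‖q.2‖) (𝓝 p) (𝓝 ‖p.2‖) := continuous_snd.norm.continuousAt
    simpa [h2] using this
  · refine ContinuousAt.div (by fun_prop) (by fun_prop) ?_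
    exact_mod_cast h

theorem dv_mul {e h : ℂ} (H : ‖e‖ ≤ ‖h‖ ^ 2) : e = h * dv (e, h) := by
  by_cases h0 : h = 0
  · simp only [h0, norm_zero, ne_eq, OfNat.ofNat_ne_zero, not_false_eq_true, zero_pow,
      norm_le_zero_iff] at H
    simp [h0, H]
  · have h1 : ((‖h‖ ^ 2 : ℝ) : ℂ) = h * (starRingEnd ℂ) h := by
      rw [Complex.mul_conj, Complex.normSq_eq_norm_sq]
    have h2 : (starRingEnd ℂ) h ≠ 0 := by simpa using h0
    simp only [dv, max_eq_left H, h1]
    field_simp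

namespace Sys

variable {Ω X : Type} [TopologicalSpace Ω] [CompactSpace Ω] (S : Sys Ω X)

/-- The ideal. -/
def I : Ideal C(Ω, ℂ) where
  carrier := {H | ∀ ε : ℕ → ℝ, (∀ i, 0 < ε i) → ∀ᶠ x in S.L, ‖H (S.z x)‖ ≤ ε (S.π x)}
  zero_mem' ε h := .of_forall fun x => by simpa using (h _).le
  add_mem' {a b} ha hb ε h := by
    filter_upwards [ha (fun i => ε i / 2) fun i => half_pos (h i),
      hb (fun i => ε i / 2) fun i => half_pos (h i)] with x h1 h2
    exact (norm_add_le _ _).trans (by linarith)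
  smul_mem' c a ha ε h := by
    have hc : 0 < ‖c‖ + 1 := by positivity
    filter_upwards [ha (fun i => ε i / (‖c‖ + 1)) fun i => div_pos (h i) hc] with x h1
    rw [le_div_iff₀ hc] at h1
    have h2 := c.norm_coe_le_norm (S.z x)
    have h3 := norm_nonneg (a (S.z x))
    simp only [smul_eq_mul, ContinuousMap.mul_apply, norm_mul]
    nlinarith

theorem mem_I {H : C(Ω, ℂ)} :
    H ∈ S.I ↔ ∀ ε : ℕ → ℝ, (∀ i, 0 < ε i) → ∀ᶠ x in S.L, ‖H (S.z x)‖ ≤ ε (S.π x) := Iff.rfl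

theorem mem_of_zero {H : C(Ω, ℂ)} (h : ∀ᶠ x in S.L, H (S.z x) = 0) : H ∈ S.I := fun ε hε => by
  filter_upwards [h] with x hx
  simpa [hx] using (hε _).le

theorem not_mem {H : C(Ω, ℂ)} {ε : ℕ → ℝ} (hε : ∀ i, 0 < ε i)
    (h : ∀ᶠ x in S.L, ε (S.π x) ≤ ‖H (S.z x)‖) : H ∉ S.I := fun hH => by
  have := S.ne
  obtain ⟨x, h1, h2⟩ := (h.and (hH (fun i => ε i / 2) fun i => half_pos (hε i))).exists
  linarith [hε (S.π x)]

theorem lower {H : C(Ω, ℂ)} (h : H ∉ S.I) :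
    ∃ ε : ℕ → ℝ, (∀ i, 0 < ε i) ∧ ∀ᶠ x in S.L, ε (S.π x) ≤ ‖H (S.z x)‖ := by
  rw [mem_I] at h
  push Not at h
  obtain ⟨ε, hε, h⟩ := h
  have h3 : ∀ i, 0 < ε i / 3 := fun i => by linarith [hε i]
  obtain ⟨y, hy⟩ := S.approx H _ h3
  refine ⟨_, h3, ?_⟩
  rcases S.ultra (fun i => ‖H (y i)‖ ≤ 2 * ε i / 3) with h1 | h1
  · obtain ⟨x, h4, h5, h6⟩ := (h.and_eventually (hy.and h1)).exists
    have := norm_sub_norm_le (H (S.z x)) (H (y (S.π x)))
    linarith
  · filter_upwards [hy, h1] with x h4 h5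
    have := norm_sub_norm_le (H (y (S.π x))) (H (S.z x))
    rw [norm_sub_rev] at this
    linarith

theorem isPrime : S.I.IsPrime := by
  refine ⟨(Ideal.ne_top_iff_one _).2 (S.not_mem (ε := fun _ => 1) (fun _ => one_pos)
    (.of_forall fun x => by simp)), fun {a b} hab => ?_⟩
  by_contra h
  push Not at h
  obtain ⟨ε, h1, h2⟩ := S.lower h.1
  obtain ⟨η, h3, h4⟩ := S.lower h.2
  refine S.not_mem (ε := fun i => ε i * η i) (fun i => mul_pos (h1 i) (h3 i)) ?_ hab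
  filter_upwards [h2, h4] with x h5 h6
  rw [ContinuousMap.mul_apply, norm_mul]
  exact mul_le_mul h5 h6 (h3 _).le (norm_nonneg _)

theorem dvd_of_le {E H : C(Ω, ℂ)} (h : ∀ᶠ x in S.L, ‖E (S.z x)‖ ≤ ‖H (S.z x)‖ ^ 2) :
    Ideal.Quotient.mk S.I H ∣ Ideal.Quotient.mk S.I E := by
  refine ⟨Ideal.Quotient.mk S.I ⟨fun w => dv (E w, H w), dv_cont.comp (by fun_prop)⟩, ?_⟩
  rw [← map_mul, Ideal.Quotient.eq]
  refine S.mem_of_zero ?_
  filter_upwards [h] with x hx
  exact sub_eq_zero.2 (dv_mul hx)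

open Classical in
/-- A function with prescribed values. -/
noncomputable def lf (s : ℕ → ℂ) : C(Ω, ℂ) :=
  if h : ∃ F : C(Ω, ℂ), ∀ x, F (S.z x) = s (S.π x) then h.choose else 0

omit [CompactSpace Ω] in
theorem lf_spec {s : ℕ → ℂ} {C : ℝ} (h : ∀ i, ‖s i‖ ≤ C) (x : X) : S.lf s (S.z x) = s (S.π x) := by
  have h1 := S.lift s C h
  rw [lf, dif_pos h1]
  exact h1.choose_spec x

theorem approx' (H : C(Ω, ℂ)) (ε : ℕ → ℝ) (hε : ∀ i, 0 < ε i) :
    ∃ s, ∀ᶠ x in S.L, ‖(H - S.lf s) (S.z x)‖ ≤ ε (S.π x) := by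
  obtain ⟨y, hy⟩ := S.approx H ε hε
  refine ⟨fun i => H (y i), ?_⟩
  filter_upwards [hy] with x hx
  rwa [ContinuousMap.sub_apply, S.lf_spec fun i => H.norm_coe_le_norm _]

theorem dense (x u : C(Ω, ℂ) ⧸ S.I) (hu : u ≠ 0) :
    ∃ s, u ∣ x - Ideal.Quotient.mk S.I (S.lf s) := by
  obtain ⟨H, rfl⟩ := Ideal.Quotient.mk_surjective u
  obtain ⟨F, rfl⟩ := Ideal.Quotient.mk_surjective x
  obtain ⟨ε, h1, h2⟩ := S.lower fun h => hu (Ideal.Quotient.eq_zero_iff_mem.2 h)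
  obtain ⟨s, hs⟩ := S.approx' F (fun i => ε i ^ 2) fun i => pow_pos (h1 i) 2
  refine ⟨s, ?_⟩
  rw [← map_sub]
  refine S.dvd_of_le ?_
  filter_upwards [h2, hs] with x h3 h4
  exact h4.trans (pow_le_pow_left₀ (h1 _).le h3 2)

/-- The basic infinitesimal. -/
noncomputable def inf : C(Ω, ℂ) := S.lf fun i => ((1 / (i + 1) : ℝ) : ℂ)

omit [CompactSpace Ω] in
theorem norm_inf (x : X) : ‖S.inf (S.z x)‖ = 1 / (S.π x + 1) := by
  have : ∀ i : ℕ, ‖((1 / (i + 1) : ℝ) : ℂ)‖ = 1 / (i + 1) := fun i => by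
    rw [Complex.norm_real, Real.norm_of_nonneg (by positivity)]
  rw [inf, S.lf_spec (C := 1) fun i => (this i).trans_le
    ((div_le_one (by positivity)).2 (by simp)), this]

theorem inf_not_mem : S.inf ∉ S.I :=
  S.not_mem (ε := fun i => 1 / (i + 1)) (fun i => by positivity)
    (.of_forall fun x => (S.norm_inf x).ge)

omit [CompactSpace Ω] in
theorem inf_small (C : ℝ) : ∀ᶠ x in S.L, C * ‖S.inf (S.z x)‖ ≤ 1 / 4 := by
  have h : Tendsto (fun i : ℕ => C * (1 / ((i : ℝ) + 1))) atTop (𝓝 (C * 0)) :=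
    tendsto_one_div_add_atTop_nhds_zero_nat.const_mul C
  rw [mul_zero] at h
  filter_upwards [S.top.eventually (h.eventually (ge_mem_nhds (show (0 : ℝ) < 1 / 4 by norm_num)))]
    with x hx
  rwa [S.norm_inf]

theorem unit (l : ℂ) : IsUnit (1 - l • Ideal.Quotient.mk S.I S.inf) := by
  have h : Ideal.Quotient.mk S.I (1 - l • S.inf) ∣ Ideal.Quotient.mk S.I ((1 / 2 : ℂ) • 1) := by
    refine S.dvd_of_le ?_
    filter_upwards [S.inf_small ‖l‖] with x hx
    have h1 := norm_sub_norm_le (1 : ℂ) (l * S.inf (S.z x))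
    rw [norm_mul, norm_one] at h1
    have h2 : 3 / 4 ≤ ‖(1 - l • S.inf) (S.z x)‖ := by
      simp only [ContinuousMap.sub_apply, ContinuousMap.one_apply, ContinuousMap.smul_apply,
        smul_eq_mul]
      linarith
    have h3 : ‖((1 / 2 : ℂ) • (1 : C(Ω, ℂ))) (S.z x)‖ = 1 / 2 := by simp
    rw [h3]
    nlinarith
  have h2 : IsUnit (Ideal.Quotient.mk S.I ((1 / 2 : ℂ) • 1)) := by
    refine IsUnit.map _ (IsUnit.of_mul_eq_one ((2 : ℂ) • 1) ?_)
    ext w
    simp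
  exact isUnit_of_dvd_unit h h2

theorem not_isMaximal : ¬ S.I.IsMaximal := fun h => by
  obtain ⟨b, c, hc, e⟩ := h.exists_inv S.inf_not_mem
  refine S.not_mem (ε := fun _ => 1 / 2) (fun _ => by norm_num) ?_ hc
  filter_upwards [S.inf_small ‖b‖] with x hx
  have h1 : b (S.z x) * S.inf (S.z x) + c (S.z x) = 1 := congrArg (fun F : C(Ω, ℂ) => F (S.z x)) e
  have h2 := norm_add_le (b (S.z x) * S.inf (S.z x)) (c (S.z x))
  rw [h1, norm_one, norm_mul] at h2
  have h3 := mul_le_mul_of_nonneg_right (b.norm_coe_le_norm (S.z x)) (norm_nonneg (S.inf (S.z x)))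
  linarith

theorem mk_seq : #(ℕ → ℂ) = 𝔠 := by simp

theorem not_normable (h : 𝔠 < #(C(Ω, ℂ) ⧸ S.I)) : IsEmpty (AlgebraNorm ℂ (C(Ω, ℂ) ⧸ S.I)) := by
  refine ⟨fun N => h.not_ge ?_⟩
  have := S.isPrime
  refine (card_le N _ (fun h => S.inf_not_mem (Ideal.Quotient.eq_zero_iff_mem.1 h)) S.unit _
    S.dense).trans ?_
  simp [mk_real]

theorem leMod {u v : C(Ω, ℂ)} {n : ℕ} (h : ∀ᶠ x in S.L, ‖u (S.z x)‖ ≤ n * ‖v (S.z x)‖) :
    LeMod S.I (modulus u) (n • modulus v) := by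
  refine S.mem_of_zero ?_
  filter_upwards [h] with x hx
  have e : (n • modulus v - modulus u) (S.z x) = ((n * ‖v (S.z x)‖ - ‖u (S.z x)‖ : ℝ) : ℂ) := by
    simp [modulus]
  change (n • modulus v - modulus u) (S.z x) - ((‖(n • modulus v - modulus u) (S.z x)‖ : ℝ) : ℂ) = 0
  rw [e, Complex.norm_real, Real.norm_of_nonneg (sub_nonneg.2 hx), sub_self]

theorem of_leMod {u v : C(Ω, ℂ)} {n : ℕ} (h : LeMod S.I (modulus u) (n • modulus v))
    (ε : ℕ → ℝ) (hε : ∀ i, 0 < ε i) :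
    ∀ᶠ x in S.L, ‖u (S.z x)‖ ≤ n * ‖v (S.z x)‖ + ε (S.π x) := by
  filter_upwards [h ε hε] with x hx
  have e : (n • modulus v - modulus u) (S.z x) = ((n * ‖v (S.z x)‖ - ‖u (S.z x)‖ : ℝ) : ℂ) := by
    simp [modulus]
  change ‖(n • modulus v - modulus u) (S.z x) -
    ((‖(n • modulus v - modulus u) (S.z x)‖ : ℝ) : ℂ)‖ ≤ _ at hx
  rw [e, ← Complex.ofReal_sub, Complex.norm_real, Complex.norm_real, Real.norm_eq_abs,
    Real.norm_eq_abs] at hx
  have h1 := neg_abs_le (n * ‖v (S.z x)‖ - ‖u (S.z x)‖ - |n * ‖v (S.z x)‖ - ‖u (S.z x)‖|)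
  have h2 := abs_nonneg (n * ‖v (S.z x)‖ - ‖u (S.z x)‖)
  linarith

theorem card_val_le : #(Quot (Arch S.I)) ≤ 𝔠 := by
  rw [← mk_seq]
  refine (mk_le_of_surjective (f := fun s : {s // Ideal.Quotient.mk S.I (S.lf s) ≠ 0} =>
    Quot.mk (Arch S.I) ⟨_, s.2⟩) ?_).trans (mk_subtype_le _)
  rintro ⟨a, ha⟩
  obtain ⟨H, rfl⟩ := Ideal.Quotient.mk_surjective a
  obtain ⟨ε, h1, h2⟩ := S.lower fun h => ha (Ideal.Quotient.eq_zero_iff_mem.2 h)
  obtain ⟨s, hs⟩ := S.approx' H (fun i => ε i / 2) fun i => half_pos (h1 i)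
  have key : ∀ᶠ x in S.L, ε (S.π x) / 2 ≤ ‖S.lf s (S.z x)‖ ∧
      ‖S.lf s (S.z x)‖ ≤ (2 : ℕ) * ‖H (S.z x)‖ ∧ ‖H (S.z x)‖ ≤ (2 : ℕ) * ‖S.lf s (S.z x)‖ := by
    filter_upwards [h2, hs] with x h3 h4
    rw [ContinuousMap.sub_apply] at h4
    have h5 := norm_sub_norm_le (H (S.z x)) (S.lf s (S.z x))
    have h6 := norm_sub_norm_le (S.lf s (S.z x)) (H (S.z x))
    rw [norm_sub_rev] at h6
    have := h1 (S.π x)
    push_cast
    refine ⟨by linarith, by linarith, by linarith⟩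
  refine ⟨⟨s, fun h => S.not_mem (fun i => half_pos (h1 i)) (key.mono fun x hx => hx.1)
    (Ideal.Quotient.eq_zero_iff_mem.1 h)⟩, Quot.sound ⟨_, _, rfl, rfl, 2,
      S.leMod (key.mono fun x hx => hx.2.1), S.leMod (key.mono fun x hx => hx.2.2)⟩⟩

/-- `a` is at least of the order of `t`. -/
def Big (t : ℕ → ℝ) (H : C(Ω, ℂ)) : Prop := ∃ c > 0, ∀ᶠ x in S.L, c * t (S.π x) ≤ ‖H (S.z x)‖

omit [CompactSpace Ω] in
theorem Big.of_le {S : Sys Ω X} {t : ℕ → ℝ} (ht : ∀ i, 0 < t i) {u v : C(Ω, ℂ)} {n : ℝ}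
    (hn : 0 ≤ n) (h : ∀ ε : ℕ → ℝ, (∀ i, 0 < ε i) →
      ∀ᶠ x in S.L, ‖u (S.z x)‖ ≤ n * ‖v (S.z x)‖ + ε (S.π x)) : S.Big t u → S.Big t v := by
  rintro ⟨c, hc, h1⟩
  refine ⟨c / (2 * (n + 1)), by positivity, ?_⟩
  filter_upwards [h1, h (fun i => c * t i / 2) fun i => by have := ht i; positivity] with x h2 h3
  rw [div_mul_eq_mul_div, div_le_iff₀ (by positivity)]
  nlinarith [norm_nonneg (v (S.z x))]

theorem Big.congr {S : Sys Ω X} {t : ℕ → ℝ} (ht : ∀ i, 0 < t i) {u v : C(Ω, ℂ)}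
    (h : Ideal.Quotient.mk S.I u = Ideal.Quotient.mk S.I v) : S.Big t u → S.Big t v := by
  refine Big.of_le ht zero_le_one fun ε hε => ?_
  filter_upwards [Ideal.Quotient.eq.1 h ε hε] with x hx
  have := norm_sub_norm_le (u (S.z x)) (v (S.z x))
  rw [ContinuousMap.sub_apply] at hx
  linarith

theorem big_iff {t : ℕ → ℝ} (ht : ∀ i, 0 < t i) {u v : C(Ω, ℂ)} {hu hv}
    (h : Quot.mk (Arch S.I) ⟨Ideal.Quotient.mk S.I u, hu⟩ =
      Quot.mk (Arch S.I) ⟨Ideal.Quotient.mk S.I v, hv⟩) : S.Big t u → S.Big t v := by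
  let B : {a : C(Ω, ℂ) ⧸ S.I // a ≠ 0} → Prop := fun a =>
    ∃ w, Ideal.Quotient.mk S.I w = a.1 ∧ S.Big t w
  have hB : ∀ a b, Arch S.I a b → B a = B b := by
    rintro a b ⟨f, g, hf, hg, n, h1, h2⟩
    refine propext ⟨fun ⟨w, h3, h4⟩ => ⟨g, hg, ?_⟩, fun ⟨w, h3, h4⟩ => ⟨f, hf, ?_⟩⟩
    · exact (h4.congr ht (h3.trans hf.symm)).of_le ht n.cast_nonneg (S.of_leMod h1)
    · exact (h4.congr ht (h3.trans hg.symm)).of_le ht n.cast_nonneg (S.of_leMod h2)
  intro h1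
  have h2 : B ⟨_, hu⟩ = B ⟨_, hv⟩ := congrArg (Quot.lift B hB) h
  obtain ⟨w, h3, h4⟩ := h2.mp ⟨u, rfl, h1⟩
  exact h4.congr ht h3

theorem card_val_gt : ℵ₀ < #(Quot (Arch S.I)) := by
  rw [aleph0_lt_mk_iff]
  refine ⟨fun hc => ?_⟩
  have hne : Nonempty (Quot (Arch S.I)) :=
    ⟨Quot.mk _ ⟨_, fun h => S.inf_not_mem (Ideal.Quotient.eq_zero_iff_mem.1 h)⟩⟩
  obtain ⟨e, he⟩ := exists_surjective_nat (Quot (Arch S.I))
  have h1 : ∀ k, ∃ (H : C(Ω, ℂ)) (h : _), Quot.mk (Arch S.I) ⟨Ideal.Quotient.mk S.I H, h⟩ = e k :=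
    fun k => by
      obtain ⟨⟨a, ha⟩, h⟩ := Quot.exists_rep (e k)
      obtain ⟨H, rfl⟩ := Ideal.Quotient.mk_surjective a
      exact ⟨H, ha, h⟩
  choose H hH h2 using h1
  choose ε h3 h4 using fun k => S.lower fun h => hH k (Ideal.Quotient.eq_zero_iff_mem.2 h)
  let m : ℕ → ℝ := fun i => min 1 ((Finset.range (i + 1)).inf' (by simp) fun k => ε k i) / (i + 1)
  have hm : ∀ i, 0 < m i := fun i => div_pos (lt_min one_pos
    ((Finset.lt_inf'_iff _).2 fun k _ => h3 k i)) (by positivity)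
  have hm1 : ∀ i, ‖(m i : ℂ)‖ ≤ 1 := fun i => by
    rw [Complex.norm_real, Real.norm_of_nonneg (hm i).le, div_le_one (by positivity)]
    exact (min_le_left _ _).trans (by simp)
  have hn : ∀ x, ‖S.lf (fun i => (m i : ℂ)) (S.z x)‖ = m (S.π x) := fun x => by
    rw [S.lf_spec hm1, Complex.norm_real, Real.norm_of_nonneg (hm _).le]
  have hne0 : Ideal.Quotient.mk S.I (S.lf fun i => (m i : ℂ)) ≠ 0 := fun h =>
    S.not_mem hm (.of_forall fun x => (hn x).ge) (Ideal.Quotient.eq_zero_iff_mem.1 h)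
  obtain ⟨k, hk⟩ := he (Quot.mk _ ⟨_, hne0⟩)
  obtain ⟨c, hc', h5⟩ := S.big_iff (h3 k) ((h2 k).trans hk) ⟨1, one_pos, by simpa using h4 k⟩
  have := S.ne
  obtain ⟨x, h6, h7, h8⟩ := (h5.and ((S.inf_small c⁻¹).and
    (S.top.eventually (eventually_ge_atTop k)))).exists
  rw [hn] at h6
  rw [S.norm_inf, inv_mul_le_iff₀ hc'] at h7
  have h9 : m (S.π x) ≤ ε k (S.π x) * (1 / (S.π x + 1)) := by
    rw [mul_one_div]
    exact div_le_div_of_nonneg_right ((min_le_right _ _).trans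
      (Finset.inf'_le _ (Finset.mem_range.2 (by omega)))) (by positivity)
  have h10 := h3 k (S.π x)
  nlinarith [mul_le_mul_of_nonneg_left h7 h10.le, mul_pos hc' h10]

end Sys

end Pool.Agent.P.MP_fe901c_an
end

-- part Pool.Agent.P.MP_fe901c_an.Rho
section

/-! A coherent system of finite sets on a well-order with countable initial segments. -/

namespace Pool.Agent.P.MP_fe901c_an

variable {W : Type} [LinearOrder W]

/-- `g` is an admissible value at `β`, given the values `G` below `β`. -/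
structure Adm (G : W → ℕ → Finset W) (β : W) (g : ℕ → Finset W) : Prop where
  self : ∀ i, β ∈ g i
  le : ∀ i ξ, ξ ∈ g i → ξ ≤ β
  mono : ∀ i j, i ≤ j → g i ⊆ g j
  ex : ∀ ξ, ξ ≤ β → ∃ i, ξ ∈ g i
  coh : ∀ i ξ, ξ < β → ξ ∈ g i → ∀ η, η ∈ G ξ i ↔ η ∈ g i ∧ η ≤ ξ

theorem Adm.coh' {G : W → ℕ → Finset W} {β : W} (h : Adm G β (G β)) {i : ℕ} {ξ : W}
    (hξ : ξ ∈ G β i) (η : W) : η ∈ G ξ i ↔ η ∈ G β i ∧ η ≤ ξ := by
  rcases (h.le i ξ hξ).lt_or_eq with h1 | rfl
  · exact h.coh i ξ h1 hξ η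
  · exact ⟨fun h2 => ⟨h2, h.le i η h2⟩, fun h2 => h2.1⟩

theorem adm_step (G : W → ℕ → Finset W) (β : W) (hc : (Set.Iio β).Countable)
    (ih : ∀ ξ, ξ < β → Adm G ξ (G ξ)) : ∃ g, Adm G β g := by
  rcases (Set.Iio β).eq_empty_or_nonempty with h | h
  · have h0 : ∀ ξ, ¬ ξ < β := fun ξ hξ => (h ▸ (hξ : ξ ∈ Set.Iio β) : ξ ∈ (∅ : Set W))
    refine ⟨fun _ => {β}, fun _ => Finset.mem_singleton_self _,
      fun _ _ h => (Finset.mem_singleton.1 h).le, fun _ _ _ => subset_rfl,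
      fun ξ hξ => ⟨0, Finset.mem_singleton.2 (hξ.lt_or_eq.resolve_left (h0 ξ))⟩,
      fun _ ξ hξ => (h0 ξ hξ).elim⟩
  obtain ⟨e, he⟩ := hc.exists_eq_range h
  have he1 : ∀ k, e k < β := fun k => (he ▸ Set.mem_range_self k : e k ∈ Set.Iio β)
  let b : ℕ → W := fun k => Nat.rec (e 0) (fun k x => max x (e (k + 1))) k
  have hb1 : ∀ k, b k < β := fun k => by
    induction k with
    | zero => exact he1 0
    | succ k ih => exact max_lt ih (he1 _)
  have hb2 : ∀ k, e k ≤ b k := fun k => by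
    cases k with
    | zero => exact le_rfl
    | succ k => exact le_max_right _ _
  have hb3 : ∀ k, b k ≤ b (k + 1) := fun k => le_max_left _ _
  choose n hn using fun k => (ih _ (hb1 (k + 1))).ex _ (hb3 k)
  have chain : ∀ i k k', k ≤ k' → (∀ j < k', n j ≤ i) → b k ∈ G (b k') i := fun i k k' hk => by
    induction k', hk using Nat.le_induction with
    | base => exact fun _ => (ih _ (hb1 k)).self i
    | succ k' hk ih' =>
      intro h1
      have h2 := (ih _ (hb1 (k' + 1))).mono _ _ (h1 k' (Nat.lt_succ_self _)) (hn k')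
      exact (((ih _ (hb1 (k' + 1))).coh' h2 _).1 (ih' fun j hj => h1 j (by omega))).1
  let K : ℕ → ℕ := fun i => Nat.findGreatest (fun k => ∀ j < k, n j ≤ i) i
  have hK1 : ∀ i, ∀ j < K i, n j ≤ i := fun i =>
    Nat.findGreatest_spec (P := fun k => ∀ j < k, n j ≤ i) (Nat.zero_le i) (by simp)
  have hK2 : ∀ i k, k ≤ i → (∀ j < k, n j ≤ i) → k ≤ K i := fun i k h1 h2 =>
    Nat.le_findGreatest (P := fun k => ∀ j < k, n j ≤ i) h1 h2
  have sub : ∀ i k, k ≤ K i → G (b k) i ⊆ G (b (K i)) i := fun i k hk η hη =>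
    (((ih _ (hb1 _)).coh' (chain i k _ hk (hK1 i)) η).1 hη).1
  refine ⟨fun i => insert β (G (b (K i)) i), fun _ => Finset.mem_insert_self _ _,
    fun i ξ hξ => ?_, fun i j hij => ?_, fun ξ hξ => ?_, fun i ξ hξ h1 η => ?_⟩
  · rcases Finset.mem_insert.1 hξ with rfl | h1
    · exact le_rfl
    · exact (((ih _ (hb1 _)).le _ _ h1).trans_lt (hb1 _)).le
  · refine Finset.insert_subset_insert _ (((ih _ (hb1 _)).mono _ _ hij).trans (sub j _ ?_))
    exact hK2 j _ ((Nat.findGreatest_le i).trans hij) fun l hl => (hK1 i l hl).trans hij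
  · rcases hξ.lt_or_eq with h1 | rfl
    · obtain ⟨k, rfl⟩ : ξ ∈ Set.range e := he ▸ (h1 : ξ ∈ Set.Iio β)
      obtain ⟨m, hm⟩ := (ih _ (hb1 k)).ex _ (hb2 k)
      refine ⟨k + m + (Finset.range k).sup n, Finset.mem_insert_of_mem (sub _ k ?_
        ((ih _ (hb1 k)).mono _ _ (by omega) hm))⟩
      refine hK2 _ _ (by omega) fun j hj => ?_
      have := Finset.le_sup (f := n) (Finset.mem_range.2 hj)
      omega
    · exact ⟨0, Finset.mem_insert_self _ _⟩
  · have h2 := (Finset.mem_insert.1 h1).resolve_left hξ.ne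
    rw [(ih _ (hb1 _)).coh' h2 η, Finset.mem_insert]
    refine ⟨fun h3 => ⟨.inr h3.1, h3.2⟩, fun h3 => ⟨h3.1.resolve_left ?_, h3.2⟩⟩
    exact (h3.2.trans_lt hξ).ne

theorem Adm.congr {G G' : W → ℕ → Finset W} {β : W} {g : ℕ → Finset W} (h : Adm G β g)
    (e : ∀ ξ, ξ < β → G ξ = G' ξ) : Adm G' β g :=
  ⟨h.self, h.le, h.mono, h.ex, fun i ξ h1 h2 η => e ξ h1 ▸ h.coh i ξ h1 h2 η⟩

theorem exists_adm [WellFoundedLT W] (hc : ∀ β : W, (Set.Iio β).Countable) :
    ∃ G : W → ℕ → Finset W, ∀ β, Adm G β (G β) := by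
  classical
  let ext : (β : W) → ((ξ : W) → ξ < β → ℕ → Finset W) → W → ℕ → Finset W :=
    fun β p ξ => if h : ξ < β then p ξ h else fun _ => ∅
  let F : (β : W) → ((ξ : W) → ξ < β → ℕ → Finset W) → ℕ → Finset W :=
    fun β p => if h : ∃ g, Adm (ext β p) β g then h.choose else fun _ => ∅
  let G : W → ℕ → Finset W := WellFounded.fix wellFounded_lt F
  have hG : ∀ β, G β = F β fun ξ _ => G ξ := fun β => WellFounded.fix_eq _ _ _
  refine ⟨G, fun β => ?_⟩
  induction β using WellFoundedLT.induction with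
  | ind β ih =>
    have e : ∀ ξ, ξ < β → G ξ = ext β (fun ξ _ => G ξ) ξ := fun ξ h => by simp [ext, h]
    obtain ⟨g, hg⟩ := adm_step G β (hc β) ih
    have h1 : ∃ g, Adm (ext β fun ξ _ => G ξ) β g := ⟨g, hg.congr e⟩
    have h2 : G β = h1.choose := by rw [hG]; simp only [F]; rw [dif_pos h1]
    have h3 := h1.choose_spec.congr fun ξ h => (e ξ h).symm
    rwa [← h2] at h3

section Scale

variable {G : W → ℕ → Finset W} (hG : ∀ β, Adm G β (G β)) (g : W → ℕ → ℝ)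
  (h0 : ∀ ξ i, 0 < g ξ i) (h4 : ∀ ξ i, g ξ i ≤ 1 / 4)

/-- The scale. -/
noncomputable def del (G : W → ℕ → Finset W) (g : W → ℕ → ℝ) (β : W) (i : ℕ) : ℝ :=
  ∏ ξ ∈ G β i, g ξ i

omit [LinearOrder W] in
include h0 in
theorem del_pos (β : W) (i : ℕ) : 0 < del G g β i := Finset.prod_pos fun ξ _ => h0 ξ i

include hG h0 h4 in
theorem del_le (β : W) (i : ℕ) : del G g β i ≤ g β i := by
  rw [del, ← Finset.mul_prod_erase _ _ ((hG β).self i)]
  exact mul_le_of_le_one_right (h0 _ _).le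
    (Finset.prod_le_one (fun ξ _ => (h0 ξ i).le) fun ξ _ => (h4 ξ i).trans (by norm_num))

include hG h0 h4 in
/-- The geometric tail bound. -/
theorem tail_le [WellFoundedLT W] (i : ℕ) (α β : W) (h : α ∈ G β i) :
    ∑ ξ ∈ G β i \ G α i, del G g ξ i ≤ (del G g α i - del G g β i) / 3 := by
  induction β using WellFoundedLT.induction with
  | ind β ih =>
    rcases ((hG β).le i α h).lt_or_eq with h1 | rfl
    swap
    · simp
    have hne : ((G β i).erase β).Nonempty := ⟨α, Finset.mem_erase.2 ⟨h1.ne, h⟩⟩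
    obtain ⟨γ, hγ, hm⟩ := Finset.exists_max_image _ id hne
    rw [Finset.mem_erase] at hγ
    have hγβ : γ < β := lt_of_le_of_ne ((hG β).le i γ hγ.2) hγ.1
    have e : G β i = insert β (G γ i) := by
      ext η
      rw [Finset.mem_insert, (hG β).coh' hγ.2 η]
      refine ⟨fun h2 => ?_, fun h2 => ?_⟩
      · by_cases h3 : η = β
        · exact .inl h3
        · exact .inr ⟨h2, hm η (Finset.mem_erase.2 ⟨h3, h2⟩)⟩
      · rcases h2 with rfl | h2
        exacts [(hG η).self i, h2.1]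
    have hn : β ∉ G γ i := fun h2 => ((hG γ).le i β h2).not_gt hγβ
    have hα : α ∈ G γ i := ((hG β).coh' hγ.2 α).2 ⟨h, hm α (Finset.mem_erase.2 ⟨h1.ne, h⟩)⟩
    have h5 := ih γ hγβ hα
    have h6 : del G g β i = g β i * del G g γ i := by rw [del, e, Finset.prod_insert hn]; rfl
    have h7 : G β i \ G α i = insert β (G γ i \ G α i) := by
      rw [e, Finset.insert_sdiff_of_notMem _ fun h2 => ((hG α).le i β h2).not_gt h1]
    rw [h7, Finset.sum_insert fun h2 => hn (Finset.mem_sdiff.1 h2).1]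
    have h8 := del_pos (G := G) g h0 γ i
    have h9 := h4 β i
    nlinarith

end Scale

end Pool.Agent.P.MP_fe901c_an
end

-- part Pool.Agent.P.MP_fe901c_an.Main
section

namespace Pool.Agent.P.MP_fe901c_an

open Filter Topology Cardinal

section

variable {W : Type} [LinearOrder W] [WellFoundedLT W] [Nonempty W]
  {G : W → ℕ → Finset W} (hG : ∀ β, Adm G β (G β)) (g : W → ℕ → ℝ)
  (h0 : ∀ ξ i, 0 < g ξ i) (h4 : ∀ ξ i, g ξ i ≤ 1 / 4)
  (hg : ∀ ε : ℕ → ℝ, (∀ i, 0 < ε i) → ∃ γ, ∀ i, g γ i ≤ ε i)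

/-- The coordinates. -/
def Co (G : W → ℕ → Finset W) (g : W → ℕ → ℝ) : Type :=
  {F : W → ℕ → ℂ // (∀ α i, ‖F α i‖ ≤ 1) ∧ ∀ α β i, α ∈ G β i → ‖F β i - F α i‖ ≤ del G g α i}

/-- The compact space. -/
abbrev Om (G : W → ℕ → Finset W) (g : W → ℕ → ℝ) : Type := Co G g → Metric.closedBall (0 : ℂ) 1

instance : CompactSpace (Metric.closedBall (0 : ℂ) 1) :=
  isCompact_iff_compactSpace.1 (isCompact_closedBall _ _)

/-- The points. -/
def pt (x : W × ℕ) : Om G g := fun F => ⟨F.1 x.1 x.2, mem_closedBall_zero_iff.2 (F.2.1 _ _)⟩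

/-- Coordinate functions. -/
def cf (F : Co G g) : C(Om G g, ℂ) := ⟨fun w => (w F : ℂ), by fun_prop⟩

omit [LinearOrder W] [WellFoundedLT W] [Nonempty W] in
theorem unif (H : C(Om G g, ℂ)) {ε : ℝ} (hε : 0 < ε) :
    ∃ δ > 0, ∀ p q : Om G g, (∀ F, dist (p F) (q F) ≤ δ) → ‖H p - H q‖ ≤ ε := by
  have h1 : UniformContinuous H := CompactSpace.uniformContinuous_of_continuous H.continuous
  have h2 : UniformContinuous 
      (UniformFun.toFun : UniformFun (Co G g) (Metric.closedBall (0 : ℂ) 1) → _) :=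
    UniformFun.uniformContinuous_toFun
  have h3 := (h1.comp h2) (Metric.dist_mem_uniformity hε)
  rw [mem_map, (UniformFun.hasBasis_uniformity_of_basis _ _
    Metric.uniformity_basis_dist_le).mem_iff] at h3
  obtain ⟨δ, h5, h6⟩ := h3
  refine ⟨δ, h5, fun p q h => ?_⟩
  have := h6 (a := (UniformFun.ofFun p, UniformFun.ofFun q)) h
  rw [← dist_eq_norm]
  exact le_of_lt this

/-- The filter. -/
noncomputable def LL (W : Type) [LinearOrder W] : Filter (W × ℕ) :=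
  (atTop : Filter W).curry (hyperfilter ℕ)

omit [WellFoundedLT W] [Nonempty W] in
include hG in
theorem ev_mem (γ : W) : ∀ᶠ x in LL W, γ ∈ G x.1 x.2 := by
  rw [LL, eventually_curry_iff]
  filter_upwards [eventually_ge_atTop γ] with β hβ
  obtain ⟨i, hi⟩ := (hG β).ex γ hβ
  refine ((eventually_ge_atTop i).filter_mono Nat.hyperfilter_le_atTop).mono fun j hj => ?_
  exact (hG β).mono _ _ hj hi

/-- The system. -/
noncomputable def sys : Sys (Om G g) (W × ℕ) where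
  L := LL W
  π := Prod.snd
  z := pt g
  ne := by
    rw [← forall_mem_nonempty_iff_neBot]
    intro s hs
    obtain ⟨β, hβ⟩ := (eventually_curry_iff.1 hs).exists
    obtain ⟨i, hi⟩ := hβ.exists
    exact ⟨_, hi⟩
  top := fun s hs => eventually_curry_iff.2 (.of_forall fun _ => Nat.hyperfilter_le_atTop hs)
  lift s C h := by
    have hC : 0 < C + 1 := by linarith [(norm_nonneg _).trans (h 0)]
    have hC' : ((C + 1 : ℝ) : ℂ) ≠ 0 := by exact_mod_cast hC.ne'
    refine ⟨((C + 1 : ℝ) : ℂ) • cf g ⟨fun _ i => s i / (C + 1 : ℝ), fun _ i => ?_,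
      fun α _ i _ => by simpa using (del_pos g h0 α i).le⟩, fun x => ?_⟩
    · rw [norm_div, Complex.norm_real, Real.norm_of_nonneg hC.le, div_le_one hC]
      linarith [h i]
    · exact mul_div_cancel₀ _ hC'
  approx H ε hε := by
    choose δ h1 h2 using fun i => unif g H (hε i)
    obtain ⟨γ, hγ⟩ := hg δ h1
    refine ⟨fun i => pt g (γ, i), (ev_mem hG γ).mono fun x hx => h2 _ _ _ fun F => ?_⟩
    exact (dist_eq_norm _ _).trans_le
      ((F.2.2 _ _ _ hx).trans ((del_le hG g h0 h4 _ _).trans (hγ _)))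
  ultra T := by
    rcases (hyperfilter ℕ).mem_or_compl_mem {i | T i} with h | h
    · exact .inl (eventually_curry_iff.2 (.of_forall fun _ => h))
    · exact .inr (eventually_curry_iff.2 (.of_forall fun _ => h))

/-- The branch sums. -/
noncomputable def br (G : W → ℕ → Finset W) (g : W → ℕ → ℝ) (f : W → Bool) (β : W) (i : ℕ) : ℝ :=
  ∑ ξ ∈ G β i, if f ξ then del G g ξ i else 0

omit [Nonempty W] in
include hG h0 h4 in
theorem br_sub (f : W → Bool) {α β : W} {i : ℕ} (h : α ∈ G β i) :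
    0 ≤ br G g f β i - br G g f α i ∧ br G g f β i - br G g f α i ≤ del G g α i / 3 := by
  have hs : G α i ⊆ G β i := fun η hη => (((hG β).coh' h η).1 hη).1
  rw [br, br, ← Finset.sum_sdiff hs, add_sub_cancel_right]
  refine ⟨Finset.sum_nonneg fun ξ _ => ?_, (Finset.sum_le_sum fun ξ _ => ?_).trans
    ((tail_le hG g h0 h4 i α β h).trans (by linarith [del_pos (G := G) g h0 β i]))⟩
  all_goals have := del_pos (G := G) g h0 ξ i; split_ifs <;> linarith

omit [Nonempty W] in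
include hG h0 h4 in
theorem br_le (f : W → Bool) (β : W) (i : ℕ) : |br G g f β i| ≤ 1 := by
  obtain ⟨α, h1, h2⟩ := Finset.exists_min_image _ id ⟨β, (hG β).self i⟩
  have e : G α i = {α} := by
    ext η
    rw [(hG β).coh' h1, Finset.mem_singleton]
    exact ⟨fun h => le_antisymm h.2 (h2 η h.1), fun h => by rw [h]; exact ⟨h1, le_rfl⟩⟩
  have h3 := br_sub hG g h0 h4 f h1
  have h5 := del_pos (G := G) g h0 α i
  have h6 := (del_le hG g h0 h4 α i).trans (h4 α i)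
  have h7 : br G g f α i = if f α then del G g α i else 0 := by rw [br, e, Finset.sum_singleton]
  rw [abs_le]
  split_ifs at h7 <;> constructor <;> linarith [h3.1, h3.2]

/-- The coordinate of a branch. -/
noncomputable def brCo (f : W → Bool) : Co G g :=
  ⟨fun β i => (br G g f β i : ℂ), fun β i => by
    rw [Complex.norm_real]; exact br_le hG g h0 h4 f β i, fun α β i h => by
    have := br_sub hG g h0 h4 f h
    rw [← Complex.ofReal_sub, Complex.norm_real, Real.norm_of_nonneg this.1]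
    linarith [this.2, del_pos (G := G) g h0 α i]⟩

theorem br_inj : Function.Injective fun f : W → Bool =>
    Ideal.Quotient.mk (sys hG g h0 h4 hg).I (cf g (brCo hG g h0 h4 f)) := by
  intro f f' h
  by_contra hne
  obtain ⟨α, h1, h2⟩ := wellFounded_lt.has_min {ξ | f ξ ≠ f' ξ} (Function.ne_iff.1 hne)
  refine (sys hG g h0 h4 hg).not_mem (ε := fun i => del G g α i / 3)
    (fun i => by linarith [del_pos (G := G) g h0 α i]) ?_ (Ideal.Quotient.eq.1 h)
  refine (ev_mem hG α).mono fun x hx => ?_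
  change del G g α x.2 / 3 ≤ ‖(br G g f x.1 x.2 : ℂ) - (br G g f' x.1 x.2 : ℂ)‖
  rw [← Complex.ofReal_sub, Complex.norm_real, Real.norm_eq_abs]
  have a1 := br_sub hG g h0 h4 f hx
  have a2 := br_sub hG g h0 h4 f' hx
  have a3 : br G g f α x.2 - br G g f' α x.2 =
      (if f α then del G g α x.2 else 0) - if f' α then del G g α x.2 else 0 := by
    rw [br, br, ← Finset.sum_sub_distrib, Finset.sum_eq_single_of_mem α ((hG α).self _)]
    intro ξ h3 h5
    have : f ξ = f' ξ := by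
      by_contra h6
      exact h2 ξ h6 (lt_of_le_of_ne ((hG α).le _ _ h3) h5)
    rw [this, sub_self]
  have a4 := del_pos (G := G) g h0 α x.2
  rw [le_abs]
  have h1' : f α ≠ f' α := h1
  cases e1 : f α <;> cases e2 : f' α <;> simp only [e1, e2, ne_eq, not_true_eq_false] at h1'
  · right
    simp only [e1, e2] at a3
    norm_num at a3
    linarith [a1.1, a1.2, a2.1, a2.2]
  · left
    simp only [e1, e2] at a3
    norm_num at a3
    linarith [a1.1, a1.2, a2.1, a2.2]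

omit [WellFoundedLT W] in
theorem card_quot_le : #(C(Om G g, ℂ) ⧸ (sys hG g h0 h4 hg).I) ≤ #(W × ℕ → ℂ) := by
  refine mk_le_of_injective (f := fun a x => (Ideal.Quotient.mk_surjective a).choose (pt g x))
    fun a b h => ?_
  rw [← (Ideal.Quotient.mk_surjective a).choose_spec, ← (Ideal.Quotient.mk_surjective b).choose_spec,
    Ideal.Quotient.eq]
  exact (sys hG g h0 h4 hg).mem_of_zero (.of_forall fun x => sub_eq_zero.2 (congrFun h x))

end

theorem main (h1 : (2 : Cardinal.{0}) ^ aleph 0 = aleph 1) :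
    ∃ (Ω : Type) (_ : TopologicalSpace Ω) (_ : CompactSpace Ω) (_ : T2Space Ω) (_ : Nonempty Ω)
      (P : Ideal C(Ω, ℂ)), P.IsPrime ∧ ¬ P.IsMaximal ∧ #(C(Ω, ℂ) ⧸ P) = 2 ^ aleph 1 ∧
      #(Quot (Arch P)) = aleph 1 ∧ IsEmpty (AlgebraNorm ℂ (C(Ω, ℂ) ⧸ P)) := by
  have hc : 𝔠 = aleph 1 := by rw [← h1, aleph_zero, two_power_aleph0]
  let W := (aleph 1 : Cardinal.{0}).ord.ToType
  have hW : #W = aleph 1 := by simp [W]
  have hI : ∀ β : W, (Set.Iio β).Countable := fun β => by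
    rw [← le_aleph0_iff_set_countable, ← Order.lt_succ_iff, succ_aleph0]
    exact (mk_Iio_lt β (by simp [W])).trans_eq hW
  have : Nonempty W := by rw [← mk_ne_zero_iff, hW]; exact (aleph_pos 1).ne'
  obtain ⟨G, hG⟩ := exists_adm hI
  obtain ⟨e⟩ : Nonempty (W ≃ (ℕ → ℝ)) := by
    rw [← Cardinal.eq, hW, ← hc]; simp [mk_real]
  let g : W → ℕ → ℝ := fun ξ i => if 0 < e ξ i then min (e ξ i) (1 / 4) else 1 / 4
  have h0 : ∀ ξ i, 0 < g ξ i := fun ξ i => by
    simp only [g]; split_ifs with h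
    exacts [lt_min h (by norm_num), by norm_num]
  have h4 : ∀ ξ i, g ξ i ≤ 1 / 4 := fun ξ i => by
    simp only [g]; split_ifs with h
    exacts [min_le_right _ _, le_rfl]
  have hg : ∀ ε : ℕ → ℝ, (∀ i, 0 < ε i) → ∃ γ, ∀ i, g γ i ≤ ε i := fun ε h =>
    ⟨e.symm ε, fun i => by simp [g, h i]⟩
  let S := sys hG g h0 h4 hg
  have hA : #(C(Om G g, ℂ) ⧸ S.I) = 2 ^ aleph 1 := by
    refine le_antisymm ((card_quot_le hG g h0 h4 hg).trans_eq ?_) ?_
    · rw [← power_def, mk_prod, lift_id, lift_id, hW, mk_nat, mk_complex,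
        mul_eq_left (aleph0_le_aleph 1) (aleph0_le_aleph 1) aleph0_ne_zero, ← two_power_aleph0,
        ← power_mul, mul_eq_right (aleph0_le_aleph 1) (aleph0_le_aleph 1) aleph0_ne_zero]
    · have := mk_le_of_injective (br_inj hG g h0 h4 hg)
      rwa [← power_def, mk_bool, hW] at this
  refine ⟨Om G g, inferInstance, inferInstance, inferInstance, ⟨fun _ => ⟨0, by simp⟩⟩, S.I,
    S.isPrime, S.not_isMaximal, hA, le_antisymm (hc ▸ S.card_val_le) ?_, S.not_normable ?_⟩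
  · rw [← succ_aleph0, Order.succ_le_iff]
    exact S.card_val_gt
  · rw [hA, hc]
    exact cantor _

end Pool.Agent.P.MP_fe901c_an
end
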